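import Pool.Agent.Helper2.HB.Meas

/-!
# Countable boxes in products of two regular trees
-/

open Cardinal Set Helper2.HB

namespace Pool.Agent.Results.MP_15b2e4_lc.CountableBoxes

/-- Two regular trees, finitely many colours, `κ` regular and uncountable: on a stationary set of
levels (for every given stationary set of regular uncountable cardinals), and on almost all
levels for every normal ultrafilter, one pair of nodes and one colour have all countable
boxes. -/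
theorem result (κ : Cardinal.{0}) (hκ : κ.IsRegular) (hκ0 : ℵ₀ < κ) (ι : Type) [Finite ι]
    (T₀ T₁ : Set (Node κ.ord.ToType)) (h₀ : IsRegularTree T₀) (h₁ : IsRegularTree T₁)
    (c : Node κ.ord.ToType → Node κ.ord.ToType → ι) :
    (∀ R : Set κ.ord.ToType, IsStationary R → (∀ ζ ∈ R, IsRegCard ζ) →
      ∃ t₀ ∈ T₀, ∃ t₁ ∈ T₁, ∃ i : ι, ∃ S ⊆ R, IsStationary S ∧
        ∀ ζ ∈ S, t₀.len < ζ ∧ t₁.len < ζ ∧ HasBoxes T₀ T₁ c ζ t₀ t₁ i) ∧
    (∀ D : Ultrafilter κ.ord.ToType, IsNormalUlt D →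
      ∃ t₀ ∈ T₀, ∃ t₁ ∈ T₁, ∃ i : ι,
        {ζ | t₀.len < ζ ∧ t₁.len < ζ ∧ HasBoxes T₀ T₁ c ζ t₀ t₁ i} ∈ D) :=
  ⟨fun _ hR hR' => main hκ hR hR' h₀ h₁ c, fun D hD => main_normal hκ hκ0 D hD h₀ h₁ c⟩

end Pool.Agent.Results.MP_15b2e4_lc.CountableBoxes
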