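import Pool.Agent.Helper39.HL.HLFin
import Pool.Agent.Helper78.HL.Main

/-!
# The Halpern-Lauchli property at a cardinal that is weakly compact after one Cohen subset
-/

open Cardinal Set Helper2.HB Pool.Agent.Helper58.HL Pool.Agent.Helper39.HL

namespace Pool.Agent.Results.MP_15b2e4_lc.FiniteTreesOneCohen

/-- Let `κ` be regular and generically compact for the full tree of all functions `ζ → κ`,
`ζ < κ`. Then for all regular trees `T 0, …, T (d - 1)`, every coloring `c` with fewer than `κ`
colors, every cofinal set `B` of levels and all nodes `a l ∈ T l` there are strong subtrees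
`T' l` through `a l`, witnessed by one common cofinal `A ⊆ B`, with only one color on the level
products at the levels of `A`; `T' l` is regular if all nodes of `T l` at levels of `A` split. -/
theorem result (κ : Cardinal.{0}) (hκ : κ.IsRegular) (hE : GenCompact κ (Node κ.ord.ToType))
    (d : ℕ) (T : Fin d → Set (Node κ.ord.ToType)) (hT : ∀ l, IsRegularTree (T l))
    (ι : Type) (hι : #ι < κ) (c : (Fin d → Node κ.ord.ToType) → ι)
    (a : Fin d → Node κ.ord.ToType) (ha : ∀ l, a l ∈ T l)
    (B : Set κ.ord.ToType) (hB : ∀ b, ∃ ζ ∈ B, b < ζ) :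
    ∃ A ⊆ B, (∀ b, ∃ ζ ∈ A, b < ζ) ∧ ∃ (T' : Fin d → Set (Node κ.ord.ToType)) (i : ι),
      (∀ l, a l ∈ T' l ∧ IsStrongSubtree (T l) A (T' l) ∧
        ((∀ t ∈ T l, t.len ∈ A → Splits (T l) t) → IsRegularTree (T' l))) ∧
      ∀ ζ ∈ A, {j | ∃ v : Fin d → Node κ.ord.ToType,
        (∀ l, v l ∈ T' l ∧ (v l).len = ζ) ∧ c v = j} = {i} :=
  hl_of_boxProp κ hκ hE d (Pool.Agent.Helper78.HL.boxProp hκ hE d) T hT ι hι c a ha B hB

end Pool.Agent.Results.MP_15b2e4_lc.FiniteTreesOneCohen
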