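import Pool.Agent.Helper39.HG.Final

/-!
# Colorings of level products of trees that omit a matrix
-/

set_option autoImplicit false

open Cardinal Set Helper2.HB Pool.Agent.Helper39.HL Pool.Agent.Helper39.HT
  Pool.Agent.Helper39.HG

namespace Pool.Agent.Results.MP_15b2e4_lc.OmittedMatrices

/-- Let `κ` be inaccessible. Let `a = 0`, or let `HL(a + 1, σ, κ)` hold for all `σ < κ` for trees
all of whose nodes split, and the same for `b`. Let `c` be a coloring of the level product of the
regular trees `S l`, `l < a + 1`, and `T l`, `l < b + 1`, with any number of colors. Then there are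
tuples `s' ≥ s` and `t' ≥ t` and homogeneous strong subtrees through their nodes, or every matrix
`e` of colors with finitely many rows and fewer than `κ` columns is avoided: for all tuples
`P i ≥ s` and `R j ≥ t` there are tuples `x i` of branches through `P i` and tuples `r j ≥ R j`
such that for cofinally many levels `ζ` all nodes above `r j l` of length below a given level can
be extended to the level `ζ` with no color `e i j` of the nodes of `x i` and a tuple of extensions
for `j`. -/
theorem result (κ : Cardinal.{0}) (hκ : κ.IsInaccessible) (a b : ℕ)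
    (hHLa : a = 0 ∨ HLProp κ (a + 1)) (hHLb : b = 0 ∨ HLProp κ (b + 1))
    (S : Fin (a + 1) → Set (Node κ.ord.ToType)) (T : Fin (b + 1) → Set (Node κ.ord.ToType))
    (hS : ∀ l, IsRegularTree (S l)) (hT : ∀ l, IsRegularTree (T l)) (ι : Type)
    (c : ((l : Fin (a + 1)) → S l) → ((l : Fin (b + 1)) → T l) → ι)
    (s : (l : Fin (a + 1)) → S l) (t : (l : Fin (b + 1)) → T l) :
    (∃ (s' : (l : Fin (a + 1)) → S l) (t' : (l : Fin (b + 1)) → T l), s ≤ s' ∧ t ≤ t' ∧
      HomogeneousG c s' t') ∨
    ∀ (m : ℕ) (B : Type), #B < κ → ∀ P : Fin m → (l : Fin (a + 1)) → S l, (∀ i, s ≤ P i) →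
      ∀ R : B → (l : Fin (b + 1)) → T l, (∀ j, t ≤ R j) → ∀ e : Fin m → B → ι,
        ∃ (x : Fin m → κ.ord.ToType → (l : Fin (a + 1)) → S l)
          (r : B → (l : Fin (b + 1)) → T l),
          (∀ i ζ l, (x i ζ l : Node κ.ord.ToType).len = ζ) ∧
          (∀ i ζ ξ, ζ ≤ ξ → x i ζ ≤ x i ξ) ∧
          (∀ i l ζ, (P i l : Node κ.ord.ToType).len ≤ ζ → P i l ≤ x i ζ l) ∧
          (∀ j, R j ≤ r j) ∧ Full (fun ζ j y => ∀ i, c (x i ζ) y ≠ e i j) r := by
  have hHLa' : HLProp κ (a + 1) := by
    rcases hHLa with rfl | h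
    · exact hlProp_one hκ
    · exact h
  have hHLb' : HLProp κ (b + 1) := by
    rcases hHLb with rfl | h
    · exact hlProp_one hκ
    · exact h
  by_cases h : ∃ (s' : (l : Fin (a + 1)) → S l) (t' : (l : Fin (b + 1)) → T l), s ≤ s' ∧
      t ≤ t' ∧ HomogeneousG c s' t'
  · exact Or.inl h
  · have hno : ∀ (s' : (l : Fin (a + 1)) → S l) (t' : (l : Fin (b + 1)) → T l), s ≤ s' →
        t ≤ t' → ¬ HomogeneousG c s' t' := fun s' t' h1 h2 h3 => h ⟨s', t', h1, h2, h3⟩
    exact Or.inr fun m B hB P hP R hR e =>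
      matrixG_ne hκ hHLb' hHLa' hS hT c s t hno m B hB P hP R hR e

end Pool.Agent.Results.MP_15b2e4_lc.OmittedMatrices
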