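import Pool.Agent.Helper39.HG.Uniform

/-!
# Colorings of level products of trees that omit a pattern
-/

set_option autoImplicit false

open Cardinal Set Helper2.HB Pool.Agent.Helper39.HL Pool.Agent.Helper39.HT
  Pool.Agent.Helper39.HG

namespace Pool.Agent.Results.MP_15b2e4_lc.OmittedPatterns

/-- Let `κ` be inaccessible, and let `b = 0`, or let `HL(b + 1, σ, κ)` hold for all `σ < κ` for
trees all of whose nodes split; `a` is arbitrary. Let `c` be a coloring of the level product of the
regular trees `S l`, `l < a + 1`, and `T l`, `l < b + 1`, with fewer than `κ` colors. Then there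
are tuples `s' ≥ s` and `t' ≥ t` and homogeneous strong subtrees through their nodes, or all
patterns of colors are avoided above fewer than `κ` tuples `P j ≥ s` and above `t`: there are
tuples `p j ≥ P j` and `r ≥ t` such that for all patterns `f`, all tuples `p' j ≥ p j` and all
families `Q l` of fewer than `κ` nodes above `r l` there are tuples above the `p' j` and extensions
of the nodes of the `Q l`, all of one length, with no color `f j` in the row of the tuple for `j`,
for a large set of lengths. -/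
theorem result (κ : Cardinal.{0}) (hκ : κ.IsInaccessible) (a b : ℕ)
    (hHL : b = 0 ∨ HLProp κ (b + 1)) (S : Fin (a + 1) → Set (Node κ.ord.ToType))
    (T : Fin (b + 1) → Set (Node κ.ord.ToType)) (hS : ∀ l, IsRegularTree (S l))
    (hT : ∀ l, IsRegularTree (T l)) (ι : Type) (hι : #ι < κ)
    (c : ((l : Fin (a + 1)) → S l) → ((l : Fin (b + 1)) → T l) → ι)
    (s : (l : Fin (a + 1)) → S l) (t : (l : Fin (b + 1)) → T l) :
    (∃ (s' : (l : Fin (a + 1)) → S l) (t' : (l : Fin (b + 1)) → T l), s ≤ s' ∧ t ≤ t' ∧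
      HomogeneousG c s' t') ∨
    ∀ Large : Set κ.ord.ToType → Prop, IsLarge Large → ∀ A : Type, #A < κ →
      ∀ P : A → (l : Fin (a + 1)) → S l, (∀ j, s ≤ P j) →
        ∃ (p : A → (l : Fin (a + 1)) → S l) (r : (l : Fin (b + 1)) → T l),
          (∀ j, P j ≤ p j) ∧ t ≤ r ∧
          ∀ (f : A → ι) (p' : A → (l : Fin (a + 1)) → S l) (Q : (l : Fin (b + 1)) → Set (T l)),
            (∀ j, p j ≤ p' j) → (∀ l, #(Q l) < κ ∧ ∀ q ∈ Q l, r l ≤ q) →
              Large (rowLevels c p' Q (fun j => {f j}ᶜ)) := by
  have hHL' : HLProp κ (b + 1) := by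
    rcases hHL with rfl | h
    · exact hlProp_one hκ
    · exact h
  by_cases h : ∃ (s' : (l : Fin (a + 1)) → S l) (t' : (l : Fin (b + 1)) → T l), s ≤ s' ∧
      t ≤ t' ∧ HomogeneousG c s' t'
  · exact Or.inl h
  · have hno : ∀ (s' : (l : Fin (a + 1)) → S l) (t' : (l : Fin (b + 1)) → T l), s ≤ s' →
        t ≤ t' → ¬ HomogeneousG c s' t' := fun s' t' h1 h2 h3 => h ⟨s', t', h1, h2, h3⟩
    exact Or.inr fun Large hL A hA P hP =>
      pattern_uniform hκ hHL' hS hT hι c s t hno Large hL A hA P hP

end Pool.Agent.Results.MP_15b2e4_lc.OmittedPatterns
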